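import Mathlib

namespace Pool.Agent.Results.MP_0b5955_al.Radical

/-- The centre of the subring (possibly without identity) with underlying set `S`. -/
def Cen {R : Type} [Ring R] (S : Set R) : Set R := {z | z ∈ S ∧ ∀ s ∈ S, z * s = s * z}

/-- The subring with underlying set `S`, as a ring in its own right, is centrally essential. -/
def CE {R : Type} [Ring R] (S : Set R) : Prop :=
  (∀ a ∈ S, ∀ b ∈ S, a * b = b * a) ∨
    ∀ a ∈ S, a ∉ Cen S → ∃ x ∈ Cen S, ∃ y ∈ Cen S, x ≠ 0 ∧ y ≠ 0 ∧ a * x = y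

@[ext] structure T where
  n : ℤ
  a : ZMod 4
  b : ZMod 4

instance : Zero T := ⟨⟨0, 0, 0⟩⟩
instance : One T := ⟨⟨1, 0, 0⟩⟩
instance : Add T := ⟨fun x y => ⟨x.n + y.n, x.a + y.a, x.b + y.b⟩⟩
instance : Neg T := ⟨fun x => ⟨-x.n, -x.a, -x.b⟩⟩
instance : Mul T :=
  ⟨fun x y => ⟨x.n * y.n, x.n * y.a + y.n * x.a + 2 * x.a * y.b, x.n * y.b + y.n * x.b⟩⟩

@[simp] theorem zero_n : (0 : T).n = 0 := rfl
@[simp] theorem zero_a : (0 : T).a = 0 := rfl
@[simp] theorem zero_b : (0 : T).b = 0 := rfl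
@[simp] theorem one_n : (1 : T).n = 1 := rfl
@[simp] theorem one_a : (1 : T).a = 0 := rfl
@[simp] theorem one_b : (1 : T).b = 0 := rfl
@[simp] theorem add_n (x y : T) : (x + y).n = x.n + y.n := rfl
@[simp] theorem add_a (x y : T) : (x + y).a = x.a + y.a := rfl
@[simp] theorem add_b (x y : T) : (x + y).b = x.b + y.b := rfl
@[simp] theorem neg_n (x : T) : (-x).n = -x.n := rfl
@[simp] theorem neg_a (x : T) : (-x).a = -x.a := rfl
@[simp] theorem neg_b (x : T) : (-x).b = -x.b := rfl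
@[simp] theorem mul_n (x y : T) : (x * y).n = x.n * y.n := rfl
@[simp] theorem mul_a (x y : T) : (x * y).a = x.n * y.a + y.n * x.a + 2 * x.a * y.b := rfl
@[simp] theorem mul_b (x y : T) : (x * y).b = x.n * y.b + y.n * x.b := rfl

theorem four : (4 : ZMod 4) = 0 := by decide

instance : Ring T := Ring.ofMinimalAxioms
  (fun x y z => by ext <;> simp <;> ring) (fun x => by ext <;> simp)
  (fun x => by ext <;> simp)
  (fun x y z => by
    ext <;> simp
    · ring
    · linear_combination (x.a * y.b * z.b) * four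
    · ring) (fun x => by ext <;> simp)
  (fun x => by ext <;> simp)
  (fun x y z => by ext <;> simp <;> ring) (fun x y z => by ext <;> simp <;> ring)

theorem jac (x : T) : x ∈ Ring.jacobson T ↔ x.n = 0 := by
  rw [← Ideal.jacobson_bot, Ideal.mem_jacobson_iff]
  constructor
  · intro h
    obtain ⟨z, hz⟩ := h x
    have := congrArg T.n (Ideal.mem_bot.1 hz)
    rw [sub_eq_add_neg] at this
    simp only [add_n, mul_n, neg_n, one_n, zero_n] at this
    have h1 : (x.n * x.n + 1) * z.n = 1 := by linear_combination this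
    have := Int.eq_one_of_mul_eq_one_right (by nlinarith [mul_self_nonneg x.n]) h1
    exact mul_self_eq_zero.1 (by linarith)
  · intro h y
    refine ⟨1 + -(y * x) + y * x * (y * x), Ideal.mem_bot.2 ?_⟩
    rw [sub_eq_add_neg]
    ext <;> simp [h]
    linear_combination (x.a * x.b * (y.n : ZMod 4) ^ 2 + y.a * x.b ^ 2 * y.n +
        (y.n : ZMod 4) ^ 2 * x.a * x.b ^ 2 * y.n + 2 * y.a * x.b ^ 3 * y.n ^ 2
        - y.a * x.b ^ 2 * y.n - x.a * x.b * (y.n : ZMod 4) ^ 2 +
        (-((y.n : ZMod 4) * x.a * x.b * y.b) + (y.n : ZMod 4) * y.a * x.b ^ 3 * y.b * 4 +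
          (y.n : ZMod 4) ^ 2 * x.a * x.b ^ 2 * y.b * 2 - y.a * x.b ^ 2 * y.b * 2)) * four

theorem result : ∃ (R : Type) (_ : Ring R), CE (Set.univ : Set R) ∧ ¬ CE (Ring.jacobson R : Set R) := by
  refine ⟨T, inferInstance, Or.inr fun a _ ha => ?_, ?_⟩
  · have c : ∀ (n : ℤ) (u v : ZMod 4), (⟨n, 2 * u, 2 * v⟩ : T) ∈ Cen Set.univ := fun n u v =>
      ⟨trivial, fun s _ => by
        ext <;> simp
        · ring
        · linear_combination (u * s.b - s.a * v) * four
        · ring⟩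
    refine ⟨⟨2, 2 * 0, 2 * 0⟩, c _ _ _, ⟨2 * a.n, 2 * a.a, 2 * a.b⟩, c _ _ _, ?_, ?_, ?_⟩
    · intro h; simpa using congrArg T.n h
    · intro h
      apply ha
      have h1 : 2 * a.a = 0 := congrArg T.a h
      have h2 : 2 * a.b = 0 := congrArg T.b h
      refine ⟨trivial, fun s _ => ?_⟩
      ext <;> simp
      · ring
      · linear_combination s.b * h1 - s.a * h2
      · ring
    · ext <;> simp <;> ring
  · have m1 : (⟨0, 1, 0⟩ : T) ∈ (Ring.jacobson T : Set T) := (jac _).2 rfl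
    have m2 : (⟨0, 0, 1⟩ : T) ∈ (Ring.jacobson T : Set T) := (jac _).2 rfl
    have nc : (⟨0, 1, 0⟩ : T) * ⟨0, 0, 1⟩ ≠ ⟨0, 0, 1⟩ * ⟨0, 1, 0⟩ := fun h => by
      have := congrArg T.a h
      simp at this
      exact absurd this (by decide)
    rintro (h | h)
    · exact nc (h _ m1 _ m2)
    · obtain ⟨x, hx, y, -, -, hy, rfl⟩ := h _ m1 fun h => nc (h.2 _ m2)
      have h0 : x.n = 0 := (jac _).1 hx.1
      have h1 := congrArg T.a (hx.2 _ m1)
      apply hy
      ext <;> simp [h0] at h1 ⊢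
      exact h1.symm

end Pool.Agent.Results.MP_0b5955_al.Radical
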